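import Mathlib
import Pool.Agent.V1193.FM.I

set_option autoImplicit false

/-!
# Fermat primes to real bases

Every prime factor of the Fermat number `F_m` exceeds `2 ^ (m + 1)`.  For real `α > 1` and
`β > 0` let `W α β m` be the `2 ^ (m + 1)`-rough part (the product, with multiplicity, of the prime
factors larger than `2 ^ (m + 1)`) of `⌊β * α ^ (2 ^ m)⌋ + 1`, and let `P α β` be the set of the
indices `m` with `W α β m` prime.  Then `W 2 1 m = F_m`, and `P 2 1` is the set of the indices of the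
Fermat primes; for an integer `a ≥ 2` the numbers `W a 1 m` are the generalised Fermat numbers.

We prove that for every base `α` and almost every `β`, and along every positive `C ^ 1` curve
`β = A α` for almost every base `α`, the set `P α β` is finite, and we find the exact asymptotic
law of its largest element: the measures of the sets of parameters for which the largest element is
`m`, and for which it is at least `m`, are asymptotic to explicit constants times `(m + 1) / 2 ^ m`.
-/

namespace Pool.Agent.Results.MP_37e5fa_nt.AlmostEveryBase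

open Filter Topology MeasureTheory

/-- The product, with multiplicity, of the prime factors of `n` that are larger than `p`. -/
def roughPart (p n : ℕ) : ℕ := (n.primeFactorsList.filter (fun r => p < r)).prod

/-- The `2 ^ (m + 1)`-rough part of `⌊β * α ^ (2 ^ m)⌋ + 1`. -/
noncomputable def W (α β : ℝ) (m : ℕ) : ℕ := roughPart (2 ^ (m + 1)) (⌊β * α ^ (2 ^ m)⌋₊ + 1)

/-- The indices with a prime value. -/
def P (α β : ℝ) : Set ℕ := {m | (W α β m).Prime}

/-- Four asymptotic laws for a random set `Q z` of natural numbers, `z` in `(u, v]`: the mass of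
`m ∈ Q z` and the mass of `m = max (Q z)` are asymptotic to `L (m + 1) / 2 ^ m`, and the mass of
`max (Q z) ≥ m` and the expected number of elements `≥ m` are asymptotic to
`2 L (m + 1) / 2 ^ m`. -/
def Law (Q : ℝ → Set ℕ) (u v L : ℝ) : Prop :=
  Tendsto (fun m : ℕ => (2 ^ m / ((m : ℝ) + 1)) *
    volume.real {z ∈ Set.Ioc u v | m ∈ Q z}) atTop (𝓝 L) ∧
  Tendsto (fun m : ℕ => (2 ^ m / ((m : ℝ) + 1)) *
    volume.real {z ∈ Set.Ioc u v | IsGreatest (Q z) m}) atTop (𝓝 L) ∧
  Tendsto (fun m : ℕ => (2 ^ m / ((m : ℝ) + 1)) *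
    volume.real {z ∈ Set.Ioc u v | ∃ k ∈ Q z, m ≤ k}) atTop (𝓝 (2 * L)) ∧
  Tendsto (fun m : ℕ => (2 ^ m / ((m : ℝ) + 1)) *
    ∫ z in Set.Ioc u v, ((Q z ∩ Set.Ici m).ncard : ℝ)) atTop (𝓝 (2 * L))

/-- Fermat primes to real bases. -/
theorem result :
    -- the values at the integer bases are the (generalised) Fermat numbers
    (∀ a : ℕ, 2 ≤ a → ∀ m : ℕ, (Even a → W a 1 m = a ^ (2 ^ m) + 1) ∧
      (Odd a → 1 ≤ m → W a 1 m = (a ^ (2 ^ m) + 1) / 2)) ∧
    P 2 1 = {m | (Nat.fermatNumber m).Prime} ∧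
    -- every base, almost every amplitude
    (∀ α : ℝ, 1 < α → (∀ᵐ β : ℝ, 0 < β → (P α β).Finite) ∧
      ∀ u v : ℝ, u < v → Law (fun y => P α (Real.exp y)) u v
        (Real.exp Real.eulerMascheroniConstant * Real.log 2 / Real.log α * (v - u))) ∧
    -- every curve of amplitudes, almost every base
    (∀ A : ℝ → ℝ, ContDiffOn ℝ 1 A (Set.Ioi 1) → (∀ α : ℝ, 1 < α → 0 < A α) →
      (∀ᵐ α : ℝ, 1 < α → (P α (A α)).Finite) ∧
      ∀ u v : ℝ, 0 < u → u < v → Law (fun x => P (Real.exp x) (A (Real.exp x))) u v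
        (Real.exp Real.eulerMascheroniConstant * Real.log 2 * (Real.log v - Real.log u))) := by
  have hW : ∀ a : ℕ, 2 ≤ a → Even a → ∀ m, W a 1 m = a ^ (2 ^ m) + 1 := fun a ha he m =>
    Pool.Agent.V1193.FM.WW_even he ha m
  refine ⟨fun a ha m => ⟨fun he => hW a ha he m, fun ho hm =>
    Pool.Agent.V1193.FM.WW_odd ho hm⟩, ?_, fun α hα => ⟨Pool.Agent.V1193.FM.amplitudes hα,
    fun u v huv => Pool.Agent.V1193.FM.final_y hα huv⟩, fun A hA hpos =>
    ⟨Pool.Agent.V1193.FM.finite_curve hA hpos,
    fun u v hu huv => Pool.Agent.V1193.FM.final_curve hA hpos hu huv⟩⟩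
  ext m
  have h := hW 2 le_rfl even_two m
  show (W 2 1 m).Prime ↔ (Nat.fermatNumber m).Prime
  rw [show W 2 1 m = 2 ^ (2 ^ m) + 1 by exact_mod_cast h]
  rfl

end Pool.Agent.Results.MP_37e5fa_nt.AlmostEveryBase
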