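import Pool.Agent.Y875.FP.Conv

/-!
# The exact power residue symbols of the divisors of `F_j` modulo a Fermat prime `F_m`

Let `F_m = 2^(2^m) + 1`, `j + 2 ≤ m`, `r = m - j`, and let `b` be a positive integer all of whose
prime factors divide `F_j` (for `j = 0`: the powers of `3`; for `j = 5` for instance `641`).

* If `F_m` is prime then the `2^(r+1)`-th power residue symbol of `b` modulo `F_m` is the power
  `2^(-2^j y)` of `2`, where `y = (b^(2^(r-1)) - 1) / 2^(r+1)`.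
* Conversely this single congruence forces `F_m` to be prime if `2^(r+1)` does not divide `y`.
* For `b = 3` the number `y` is odd, and we get a refinement of the test of Pepin
  (`F_m` is prime iff `3^((F_m - 1) / 2) = -1`): for `m ≥ 2` the number `F_m` is prime iff
  `3^((F_m - 1) / 2^(m+1)) = 2^(-(3^(2^(m-1)) - 1) / 2^(m+1))` modulo `F_m`.
-/

set_option autoImplicit false

namespace Pool.Agent.Results.MP_37e5fa_nt.DivisorsOfSmallerFermat

open Pool.Agent.Y875.FP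

lemma exp_eq {j r : ℕ} (hr : 2 ≤ r) :
    (Nat.fermatNumber (j + r) - 1) / 2 ^ (r + 1) = 2 ^ (2 ^ (j + r) - (r + 1)) := by
  have hbd := exp_bound (j := j) hr
  unfold Nat.fermatNumber
  rw [Nat.add_sub_cancel, Nat.pow_div (by omega) (by norm_num)]

/-- the `2`-adic valuation of `3^(2^(r-1)) - 1` is `r + 1` -/
lemma three_pow (l : ℕ) : ∃ y : ℕ, Odd y ∧ 3 ^ (2 ^ (l + 1)) = 1 + 2 ^ (l + 3) * y := by
  induction l with
  | zero => exact ⟨1, odd_one, by norm_num⟩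
  | succ l ih =>
    obtain ⟨y, hy, h⟩ := ih
    refine ⟨y + 2 ^ (l + 2) * y ^ 2, ?_, ?_⟩
    · refine hy.add_even ?_
      exact Even.mul_right (by rw [Nat.even_pow]; exact ⟨even_two, by omega⟩) _
    · rw [pow_succ 2 (l + 1), pow_mul, h]
      ring

theorem result :
    (∀ j r b : ℕ, 2 ≤ r → b ≠ 0 →
      (∀ q : ℕ, q.Prime → q ∣ b → q ∣ Nat.fermatNumber j) →
      2 ^ (r + 1) ∣ b ^ (2 ^ (r - 1)) - 1 ∧
      ((Nat.fermatNumber (j + r)).Prime →
        (b : ZMod (Nat.fermatNumber (j + r))) ^ ((Nat.fermatNumber (j + r) - 1) / 2 ^ (r + 1)) *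
          2 ^ (2 ^ j * ((b ^ (2 ^ (r - 1)) - 1) / 2 ^ (r + 1))) = 1) ∧
      (¬ 2 ^ (r + 1) ∣ (b ^ (2 ^ (r - 1)) - 1) / 2 ^ (r + 1) →
        (b : ZMod (Nat.fermatNumber (j + r))) ^ ((Nat.fermatNumber (j + r) - 1) / 2 ^ (r + 1)) *
          2 ^ (2 ^ j * ((b ^ (2 ^ (r - 1)) - 1) / 2 ^ (r + 1))) = 1 →
        (Nat.fermatNumber (j + r)).Prime)) ∧
    (∀ m : ℕ, 2 ≤ m → ((Nat.fermatNumber m).Prime ↔
      (3 : ZMod (Nat.fermatNumber m)) ^ ((Nat.fermatNumber m - 1) / 2 ^ (m + 1)) *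
        2 ^ ((3 ^ (2 ^ (m - 1)) - 1) / 2 ^ (m + 1)) = 1)) := by
  have key : ∀ j r b : ℕ, 2 ≤ r → b ≠ 0 →
      (∀ q : ℕ, q.Prime → q ∣ b → q ∣ Nat.fermatNumber j) →
      2 ^ (r + 1) ∣ b ^ (2 ^ (r - 1)) - 1 ∧
      ((Nat.fermatNumber (j + r)).Prime →
        (b : ZMod (Nat.fermatNumber (j + r))) ^ ((Nat.fermatNumber (j + r) - 1) / 2 ^ (r + 1)) *
          2 ^ (2 ^ j * ((b ^ (2 ^ (r - 1)) - 1) / 2 ^ (r + 1))) = 1) ∧
      (¬ 2 ^ (r + 1) ∣ (b ^ (2 ^ (r - 1)) - 1) / 2 ^ (r + 1) →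
        (b : ZMod (Nat.fermatNumber (j + r))) ^ ((Nat.fermatNumber (j + r) - 1) / 2 ^ (r + 1)) *
          2 ^ (2 ^ j * ((b ^ (2 ^ (r - 1)) - 1) / 2 ^ (r + 1))) = 1 →
        (Nat.fermatNumber (j + r)).Prime) := by
    intro j r b hr hb0 hb
    rw [exp_eq hr]
    have hbo : Odd b := by
      rw [← Nat.not_even_iff_odd]
      intro hev
      have h1 := hb 2 Nat.prime_two (even_iff_two_dvd.mp hev)
      exact (Nat.not_even_iff_odd.mpr (Nat.odd_fermatNumber j)) (even_iff_two_dvd.mpr h1)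
    obtain ⟨c, rfl⟩ : ∃ c, r = c + 2 := ⟨r - 2, by omega⟩
    obtain ⟨y, hy⟩ := odd_pow_eq hbo c
    have e4 : c + 2 - 1 = c + 1 := by omega
    refine ⟨?_, ?_, ?_⟩
    · rw [e4, hy, Nat.add_sub_cancel_left]
      exact dvd_mul_right _ _
    · intro hF
      obtain ⟨y', hy1, hy2⟩ := fermat_law hr hF hb hb0
      have h3 : (b ^ (2 ^ (c + 2 - 1)) - 1) / 2 ^ (c + 2 + 1) = y' := by
        rw [hy1, Nat.add_sub_cancel_left, Nat.mul_div_cancel_left _ (by positivity)]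
      rw [h3]
      exact hy2
    · intro hnd h
      exact conv hr hnd h
  refine ⟨key, fun m hm => ?_⟩
  obtain ⟨c, rfl⟩ : ∃ c, m = c + 2 := ⟨m - 2, by omega⟩
  obtain ⟨y, hyo, hy⟩ := three_pow c
  have hb : ∀ q : ℕ, q.Prime → q ∣ 3 → q ∣ Nat.fermatNumber 0 := by
    intro q _ h
    simpa [Nat.fermatNumber] using h
  obtain ⟨-, h1, h2⟩ := key 0 (c + 2) 3 hm (by norm_num) hb
  rw [zero_add] at h1 h2
  have e4 : c + 2 - 1 = c + 1 := by omega
  have e5 : ∀ n : ℕ, 2 ^ 0 * n = n := fun n => by rw [pow_zero, one_mul]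
  rw [e5] at h1 h2
  have hd : ¬ 2 ^ (c + 2 + 1) ∣ (3 ^ (2 ^ (c + 2 - 1)) - 1) / 2 ^ (c + 2 + 1) := by
    rw [e4, hy, Nat.add_sub_cancel_left, Nat.mul_div_cancel_left _ (by positivity)]
    intro h
    have h3 : 2 ∣ y := (dvd_pow_self 2 (by omega)).trans h
    exact (Nat.not_even_iff_odd.mpr hyo) (even_iff_two_dvd.mpr h3)
  push_cast at h1 h2
  exact ⟨h1, h2 hd⟩

end Pool.Agent.Results.MP_37e5fa_nt.DivisorsOfSmallerFermat
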