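import Pool.Agent.Y875.FP.AnyF

/-!
# The power residue class of every prime `q` modulo a Fermat prime, at all levels

Let `q` be an odd prime, `r ≥ 2`, and let `z` be a primitive `2^(r+1)`-th root of unity in a field
`L` of characteristic `q`. If `q` does not divide `F_m = 2^(2^m) + 1`, `m = j + r`, then there is
exactly one residue `c` modulo `2^(r+1)` such that

`∏_t (1 - 2^(2^j) z^(1/t))^(q - 1 - ⌊q t / 2^(r+1)⌋) = z^(-q c)`  in `L`,

`t` running through the odd residues modulo `2^(r+1)`. This `c` is computed in characteristic `q`.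
If `F_m` is prime, then `q^((F_m - 1) / 2^(r+1)) = 2^(-2^j c)` modulo `F_m`: the `2^(r+1)`-th power
residue symbol of `q` modulo `F_m`. Conversely, for `c ≠ 0` this congruence forces `F_m` to be prime.
For `j = 0` this is the highest level `2^(m+1)`, the order of `2` modulo `F_m`.
-/

set_option autoImplicit false

namespace Pool.Agent.Results.MP_37e5fa_nt.EveryPrimeAllLevels

open Pool.Agent.Y875.FP

/-- The product over the odd residues `t` modulo `2^(r+1)` of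
`(1 - x z^(1/t))^(q - 1 - ⌊q t / 2^(r+1)⌋)`, where `1/t` is the inverse of `t` modulo `2^(r+1)`, and
`t`, `1/t` stand for the least positive residues. -/
noncomputable def D {L : Type} [Field L] (r q : ℕ) (x z : L) : L :=
  ∏ t : (ZMod (2 ^ (r + 1)))ˣ, (1 - x * z ^ (((t⁻¹ : (ZMod (2 ^ (r + 1)))ˣ) :
    ZMod (2 ^ (r + 1))).val)) ^ (q - 1 - q * (t : ZMod (2 ^ (r + 1))).val / 2 ^ (r + 1))

lemma exp_eq {j r : ℕ} (hr : 2 ≤ r) :
    (Nat.fermatNumber (j + r) - 1) / 2 ^ (r + 1) = 2 ^ (2 ^ (j + r) - (r + 1)) := by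
  have hbd := exp_bound (j := j) hr
  unfold Nat.fermatNumber
  rw [Nat.add_sub_cancel, Nat.pow_div (by omega) (by norm_num)]

theorem result (j r q : ℕ) (hr : 2 ≤ r) (hjr : 3 ≤ j + r) (hq : q.Prime) (hq2 : q ≠ 2)
    (hqF : ¬ q ∣ Nat.fermatNumber (j + r)) (L : Type) [Field L] [CharP L q] (z : L)
    (hz : z ^ (2 ^ r) = -1) :
    (∃! c : ℕ, c < 2 ^ (r + 1) ∧ D r q (2 ^ (2 ^ j) : L) z * z ^ (q * c) = 1) ∧
    ∀ c : ℕ, c < 2 ^ (r + 1) → D r q (2 ^ (2 ^ j) : L) z * z ^ (q * c) = 1 →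
      ((Nat.fermatNumber (j + r)).Prime →
        (q : ZMod (Nat.fermatNumber (j + r))) ^ ((Nat.fermatNumber (j + r) - 1) / 2 ^ (r + 1)) *
          2 ^ (2 ^ j * c) = 1) ∧
      (c ≠ 0 →
        (q : ZMod (Nat.fermatNumber (j + r))) ^ ((Nat.fermatNumber (j + r) - 1) / 2 ^ (r + 1)) *
          2 ^ (2 ^ j * c) = 1 → (Nat.fermatNumber (j + r)).Prime) := by
  have : Fact q.Prime := ⟨hq⟩
  obtain ⟨c₀, hc₀, hP, h1, h2⟩ := any_fermat (j := j) hr hjr hq hq2 hqF hz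
  rw [exp_eq hr]
  have hD : D r q (2 ^ (2 ^ j) : L) z = ∏ t : (ZMod (2 ^ (r + 1)))ˣ,
      (1 - 2 ^ (2 ^ j) * z ^ (t⁻¹.val.val)) ^ (q - 1 - q * t.val.val / 2 ^ (r + 1)) := rfl
  rw [← hD] at hP
  have h2L : (2 : L) ≠ 0 := by
    intro h
    have h2 : ((2 : ℕ) : L) = 0 := by exact_mod_cast h
    rw [CharP.cast_eq_zero_iff L q 2] at h2
    exact hq2 ((Nat.prime_dvd_prime_iff_eq hq Nat.prime_two).mp h2)
  have hprim : IsPrimitiveRoot z (2 ^ (r + 1)) := prim_of_half hz h2L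
  have huniq : ∀ c : ℕ, c < 2 ^ (r + 1) → D r q (2 ^ (2 ^ j) : L) z * z ^ (q * c) = 1 → c = c₀ := by
    intro c hc hcP
    have hD0 : D r q (2 ^ (2 ^ j) : L) z ≠ 0 := left_ne_zero_of_mul_eq_one hP
    have h3 : z ^ (q * c) = z ^ (q * c₀) := by
      apply mul_left_cancel₀ hD0
      rw [hcP, hP]
    have hz0 : z ≠ 0 := by
      rintro rfl
      rw [zero_pow (by positivity)] at hz
      exact (neg_ne_zero.mpr one_ne_zero) hz.symm
    have hcop : Nat.Coprime (2 ^ (r + 1)) q :=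
      (Nat.Coprime.pow_right _ (Nat.coprime_two_right.mpr (hq.odd_of_ne_two hq2))).symm
    have hmod : c ≡ c₀ [MOD 2 ^ (r + 1)] := by
      have h4 : q * c ≡ q * c₀ [MOD 2 ^ (r + 1)] := by
        have hfin : IsOfFinOrder z := isOfFinOrder_iff_pow_eq_one.mpr
          ⟨2 ^ (r + 1), by positivity, hprim.pow_eq_one⟩
        rw [hprim.eq_orderOf]
        exact (hfin.pow_eq_pow_iff_modEq).mp h3
      exact Nat.ModEq.cancel_left_of_coprime hcop h4
    exact Nat.ModEq.eq_of_lt_of_lt hmod hc hc₀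
  refine ⟨⟨c₀, ⟨hc₀, hP⟩, fun c hc => huniq c hc.1 hc.2⟩, ?_⟩
  intro c hc hcP
  rw [huniq c hc hcP]
  exact ⟨h1, h2⟩

end Pool.Agent.Results.MP_37e5fa_nt.EveryPrimeAllLevels
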