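import Mathlib
import Pool.Agent.V1193.FS.I

set_option autoImplicit false

/-!
# Several Fermat primes to real bases

Every prime factor of the Fermat number `F_m` exceeds `2 ^ (m + 1)`.  For real `α > 1` and
`β > 0` let `W α β m` be the `2 ^ (m + 1)`-rough part (the product, with multiplicity, of the prime
factors larger than `2 ^ (m + 1)`) of `⌊β * α ^ (2 ^ m)⌋ + 1`, and let `P α β` be the set of the
indices `m` with `W α β m` prime.  Then `P 2 1` is the set of the indices of the Fermat primes.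

For every base `α` we bound, up to constants that do not depend on `α ≥ a > 1`, the correlations of
all orders of the events `m ∈ P α (exp y)` by the product of the weights `(m + 1) / 2 ^ m`, the tail
of the number of indices `≥ M` by the tail of a Poisson law of mean a constant times
`(M + 1) / 2 ^ M`, and all exponential moments of this number.  In the mean over the base and the
amplitude we find the exact asymptotic joint law of the two largest elements of `P α β`, the law of
the second largest one, and the probability that `P α β` has at least two elements `≥ m`.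
-/

namespace Pool.Agent.Results.MP_37e5fa_nt.SeveralFermatPrimes

open Filter Topology MeasureTheory

/-- The product, with multiplicity, of the prime factors of `n` that are larger than `p`. -/
def roughPart (p n : ℕ) : ℕ := (n.primeFactorsList.filter (fun r => p < r)).prod

/-- The `2 ^ (m + 1)`-rough part of `⌊β * α ^ (2 ^ m)⌋ + 1`. -/
noncomputable def W (α β : ℝ) (m : ℕ) : ℕ := roughPart (2 ^ (m + 1)) (⌊β * α ^ (2 ^ m)⌋₊ + 1)

/-- The indices with a prime value. -/
def P (α β : ℝ) : Set ℕ := {m | (W α β m).Prime}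

/-- The weight of the index `m`. -/
noncomputable def wt (m : ℕ) : ℝ := ((m : ℝ) + 1) / 2 ^ m

/-- The two largest elements of the set `A` are `m < n`. -/
def TwoLargest (A : Set ℕ) (m n : ℕ) : Prop := IsGreatest A n ∧ IsGreatest (A \ {n}) m

/-- The constant of the laws for two indices: the integral of `(e ^ γ log 2 / x) ^ 2` over the box
`(x0, x1] × (y0, y1]`. -/
noncomputable def L2 (x0 x1 y0 y1 : ℝ) : ℝ :=
  Real.exp Real.eulerMascheroniConstant ^ 2 * Real.log 2 ^ 2 * (1 / x0 - 1 / x1) * (y1 - y0)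

/-- Several Fermat primes to real bases. -/
theorem result :
    P 2 1 = {m | (Nat.fermatNumber m).Prime} ∧
    -- every base: correlations of all orders, tails and exponential moments
    (∀ a : ℝ, 1 < a → ∀ u v : ℝ, u < v → ∃ C : ℝ, 0 < C ∧ ∃ M0 : ℕ, ∀ α : ℝ, a ≤ α →
      (∀ J : Finset ℕ, (∀ m ∈ J, M0 ≤ m) →
        volume.real {y ∈ Set.Ioc u v | ∀ m ∈ J, m ∈ P α (Real.exp y)} ≤
          (v - u) * ∏ m ∈ J, (C * wt m)) ∧
      (∀ M ≥ M0, ∀ k : ℕ,
        volume.real {y ∈ Set.Ioc u v | (k : ℕ∞) ≤ (P α (Real.exp y) ∩ Set.Ici M).encard} ≤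
          (v - u) * ((C * wt M) ^ k / k.factorial)) ∧
      (∀ M ≥ M0, ∀ r : ℝ, 1 ≤ r →
        IntegrableOn (fun y => r ^ (P α (Real.exp y) ∩ Set.Ici M).ncard) (Set.Ioc u v) ∧
        ∫ y in Set.Ioc u v, r ^ (P α (Real.exp y) ∩ Set.Ici M).ncard ≤
          (v - u) * Real.exp (C * r * wt M))) ∧
    (∀ α : ℝ, 1 < α → ∀ u v : ℝ, u < v → ∀ r : ℝ, 1 ≤ r →
      IntegrableOn (fun y => r ^ (P α (Real.exp y)).ncard) (Set.Ioc u v)) ∧
    -- the two largest indices, in the mean over base and amplitude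
    (∀ x0 x1 y0 y1 : ℝ, 0 < x0 → x0 < x1 → y0 < y1 →
      (∀ ε : ℝ, 0 < ε → ∃ M : ℕ, ∀ m n : ℕ, M ≤ m → m < n →
        |(2 ^ m / ((m : ℝ) + 1)) * (2 ^ n / ((n : ℝ) + 1)) *
          volume.real {z ∈ Set.Ioc x0 x1 ×ˢ Set.Ioc y0 y1 |
            TwoLargest (P (Real.exp z.1) (Real.exp z.2)) m n} - L2 x0 x1 y0 y1| ≤ ε) ∧
      Tendsto (fun m : ℕ => (4 ^ m / ((m : ℝ) + 1) ^ 2) *
        volume.real {z ∈ Set.Ioc x0 x1 ×ˢ Set.Ioc y0 y1 |
          ∃ n, TwoLargest (P (Real.exp z.1) (Real.exp z.2)) m n}) atTop (𝓝 (L2 x0 x1 y0 y1)) ∧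
      Tendsto (fun m : ℕ => (4 ^ m / ((m : ℝ) + 1) ^ 2) *
        volume.real {z ∈ Set.Ioc x0 x1 ×ˢ Set.Ioc y0 y1 |
          ∃ p ∈ P (Real.exp z.1) (Real.exp z.2), ∃ q ∈ P (Real.exp z.1) (Real.exp z.2),
            m ≤ p ∧ p < q}) atTop (𝓝 (4 / 3 * L2 x0 x1 y0 y1))) := by
  refine ⟨?_, fun a ha u v huv => Pool.Agent.V1193.FS.combined ha huv,
    fun α hα u v huv r hr => Pool.Agent.V1193.FS.full hα huv hr,
    fun x0 x1 y0 y1 hx0 hx hy => Pool.Agent.V1193.FS.laws hx0 hx hy⟩
  ext m
  have h := Pool.Agent.V1193.FM.WW_even even_two (le_refl 2) m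
  show (W 2 1 m).Prime ↔ (Nat.fermatNumber m).Prime
  rw [show W 2 1 m = 2 ^ (2 ^ m) + 1 by exact_mod_cast h]
  rfl

end Pool.Agent.Results.MP_37e5fa_nt.SeveralFermatPrimes
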